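import Pool.Agent.N229.PG.Stm

/-! Project PG, leaf B: a sum over equally spaced points. -/

namespace PG

open Finset in
lemma n828_inj {N : ℕ} {A f : ℕ → ℝ} (hA : ∀ i, 0 ≤ A i) (s : Finset ℕ) (φ : ℕ → ℕ)
    (hφ : ∀ j ∈ s, φ j < N) (hinj : Set.InjOn φ (s : Set ℕ)) (hf : ∀ j ∈ s, f j ≤ A (φ j)) :
    ∑ j ∈ s, f j ≤ ∑ i ∈ Finset.range N, A i := by
  calc ∑ j ∈ s, f j ≤ ∑ j ∈ s, A (φ j) := Finset.sum_le_sum hf
    _ = ∑ i ∈ s.image φ, A i := (Finset.sum_image hinj).symm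
    _ ≤ ∑ i ∈ Finset.range N, A i := by
        apply Finset.sum_le_sum_of_subset_of_nonneg
        · intro i hi
          obtain ⟨j, hj, rfl⟩ := Finset.mem_image.1 hi
          exact Finset.mem_range.2 (hφ j hj)
        · intro i _ _
          exact hA i

lemma n828_harm (N : ℕ) (h ρ : ℝ) (hN : 1 ≤ N) (hh : 0 < h) (hρ : 0 < ρ) :
    ∑ i ∈ Finset.range N, 1 / (ρ + h * (i : ℝ)) ≤ 1 / ρ + 1 / h * (1 + Real.log N) := by
  obtain ⟨M, rfl⟩ : ∃ M, N = M + 1 := ⟨N - 1, by omega⟩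
  rw [Finset.sum_range_succ']
  have h0 : 1 / (ρ + h * ((0 : ℕ) : ℝ)) = 1 / ρ := by simp
  rw [h0]
  have h1 : ∀ i ∈ Finset.range M, 1 / (ρ + h * ((i + 1 : ℕ) : ℝ)) ≤ 1 / h * ((i : ℝ) + 1)⁻¹ := by
    intro i _
    have hi : (0 : ℝ) < (i : ℝ) + 1 := by positivity
    rw [one_div, one_div, ← mul_inv]
    apply inv_anti₀ (by positivity)
    push_cast
    linarith
  have h2 := Finset.sum_le_sum h1
  rw [← Finset.mul_sum] at h2
  have h3 : ∑ i ∈ Finset.range M, ((i : ℝ) + 1)⁻¹ ≤ 1 + Real.log M := by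
    have h4 := harmonic_le_one_add_log M
    rw [harmonic] at h4
    push_cast at h4
    exact h4
  have h5 : Real.log M ≤ Real.log ((M + 1 : ℕ) : ℝ) := by
    rcases Nat.eq_zero_or_pos M with rfl | hM
    · simp
    · apply Real.log_le_log (by exact_mod_cast hM)
      push_cast
      linarith
  have h6 : 1 / h * ∑ i ∈ Finset.range M, ((i : ℝ) + 1)⁻¹ ≤
      1 / h * (1 + Real.log ((M + 1 : ℕ) : ℝ)) :=
    mul_le_mul_of_nonneg_left (by linarith) (by positivity)
  linarith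

theorem leaf_B : StmB := by
  intro N h ρ x hN hh hρ
  have hS := n828_harm N h ρ hN hh hρ
  have hA : ∀ i : ℕ, (0 : ℝ) ≤ 1 / (ρ + h * (i : ℝ)) := fun i => by positivity
  rw [← Finset.sum_filter_add_sum_filter_not (Finset.range N) (fun j : ℕ => x < (j : ℝ))]
  have h1 : ∑ j ∈ (Finset.range N).filter (fun j : ℕ => x < (j : ℝ)),
      1 / (ρ + h * |x - (j : ℝ)|) ≤ ∑ i ∈ Finset.range N, 1 / (ρ + h * (i : ℝ)) := by
    apply n828_inj hA _ (fun j => j - ⌈x⌉₊)
    · intro j hj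
      have := (Finset.mem_filter.1 hj).1
      have := Finset.mem_range.1 this
      show j - ⌈x⌉₊ < N
      omega
    · intro i hi j hj hij
      have hi' := (Finset.mem_filter.1 (Finset.mem_coe.1 hi)).2
      have hj' := (Finset.mem_filter.1 (Finset.mem_coe.1 hj)).2
      have e1 : ⌈x⌉₊ ≤ i := Nat.ceil_le.2 hi'.le
      have e2 : ⌈x⌉₊ ≤ j := Nat.ceil_le.2 hj'.le
      simp only at hij
      omega
    · intro j hj
      have hj' := (Finset.mem_filter.1 hj).2
      have e2 : ⌈x⌉₊ ≤ j := Nat.ceil_le.2 hj'.le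
      have e3 : x ≤ (⌈x⌉₊ : ℝ) := Nat.le_ceil x
      have e4 : |x - (j : ℝ)| = (j : ℝ) - x := by
        rw [abs_sub_comm]; exact abs_of_pos (by linarith)
      have e5 : (((j - ⌈x⌉₊ : ℕ)) : ℝ) ≤ |x - (j : ℝ)| := by
        rw [e4, Nat.cast_sub e2]
        linarith
      apply one_div_le_one_div_of_le
      · positivity
      · have := mul_le_mul_of_nonneg_left e5 hh.le
        linarith
  have h2 : ∑ j ∈ (Finset.range N).filter (fun j : ℕ => ¬ x < (j : ℝ)),
      1 / (ρ + h * |x - (j : ℝ)|) ≤ ∑ i ∈ Finset.range N, 1 / (ρ + h * (i : ℝ)) := by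
    have key : ∀ j ∈ (Finset.range N).filter (fun j : ℕ => ¬ x < (j : ℝ)),
        j ≤ min ⌊x⌋₊ (N - 1) ∧ (j : ℝ) ≤ x := by
      intro j hj
      have a1 := (Finset.mem_filter.1 hj).2
      have a2 := Finset.mem_range.1 (Finset.mem_filter.1 hj).1
      have a3 : (j : ℝ) ≤ x := not_lt.1 a1
      exact ⟨le_min (Nat.le_floor a3) (by omega), a3⟩
    apply n828_inj hA _ (fun j => min ⌊x⌋₊ (N - 1) - j)
    · intro j hj
      show min ⌊x⌋₊ (N - 1) - j < N
      omega
    · intro i hi j hj hij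
      have hi' := (key i (Finset.mem_coe.1 hi)).1
      have hj' := (key j (Finset.mem_coe.1 hj)).1
      simp only at hij
      omega
    · intro j hj
      obtain ⟨k1, k2⟩ := key j hj
      have e4 : |x - (j : ℝ)| = x - (j : ℝ) := abs_of_nonneg (by linarith)
      have hx : 0 ≤ x := le_trans (Nat.cast_nonneg j) k2
      have e3 : ((min ⌊x⌋₊ (N - 1) : ℕ) : ℝ) ≤ x :=
        le_trans (by exact_mod_cast min_le_left _ _) (Nat.floor_le hx)
      have e5 : (((min ⌊x⌋₊ (N - 1) - j : ℕ)) : ℝ) ≤ |x - (j : ℝ)| := by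
        rw [e4, Nat.cast_sub k1]
        linarith
      apply one_div_le_one_div_of_le
      · positivity
      · have := mul_le_mul_of_nonneg_left e5 hh.le
        linarith
  have e : 2 / ρ + 2 / h * (1 + Real.log N) =
      (1 / ρ + 1 / h * (1 + Real.log N)) + (1 / ρ + 1 / h * (1 + Real.log N)) := by ring
  rw [e]
  exact add_le_add (h1.trans hS) (h2.trans hS)

end PG
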